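import Mathlib
import Pool.Agent.Y436.Grow

set_option autoImplicit false

/-!
# Growing a configuration, with small components (helper468)

`H` is an `(s+2)`-uniform hypergraph on `n` vertices in which no `e` edges lie on at most
`s e + d + 1` vertices. If `S₀` is a set of fewer than `e` edges inside `U₀`,
`|U₀| ≤ s |S₀| + d` and `m = e - 1 - |S₀|`, then `s` times the sum of the degrees of the vertices
of `U₀` is at most `(s m / (s m + 1)) n + s (s + 2) e`.

New against `Pool.Agent.Y436.Grow.grow` (which has `n` instead of `(s m / (s m + 1)) n`): the edges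
which meet the maximal extension in one vertex fall into components with at most `m` edges.
-/

namespace Pool.Agent.U468.BES

open Finset Pool.Agent.Y436.Grow

/-- Families without small unions whose connected parts are small. -/
lemma comps {V ι : Type*} [DecidableEq V] [DecidableEq ι] (s m : ℕ) (L : ι → Finset V)
    (T : Finset ι) (h2 : ∀ i ∈ T, (L i).card = s + 1)
    (hA : ∀ T' ⊆ T, T'.Nonempty → s * T'.card + 1 ≤ (T'.biUnion L).card)
    (hB : ∀ T' ⊆ T, T'.card = m + 1 → s * T'.card + 2 ≤ (T'.biUnion L).card) :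
    (s * m + 1) * (s * T.card) ≤ s * m * (T.biUnion L).card := by
  classical
  induction' hc : T.card using Nat.strong_induction_on with c ih generalizing T
  rcases T.eq_empty_or_nonempty with hT | ⟨i, hi⟩
  · subst hT
    simp at hc
    subst hc
    simp
  -- a maximal connected part
  let P : Finset (Finset ι) := T.powerset.filter fun Y =>
    i ∈ Y ∧ (Y.biUnion L).card ≤ s * Y.card + 1 ∧ Y.card ≤ m + 1
  have hP : P.Nonempty := by
    refine ⟨{i}, ?_⟩
    simp only [P, mem_filter, mem_powerset, singleton_subset_iff, mem_singleton, true_and,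
      card_singleton, singleton_biUnion, mul_one]
    exact ⟨hi, (h2 i hi).le, by omega⟩
  obtain ⟨Y, hY, hmax⟩ := P.exists_max_image (fun q => q.card) hP
  simp only [P, mem_filter, mem_powerset] at hY hmax
  obtain ⟨hYT, hiY, hYc, hYm⟩ := hY
  have hYne : Y.Nonempty := ⟨i, hiY⟩
  have hYm' : Y.card ≤ m := by
    by_contra hcon
    have h3 : Y.card = m + 1 := by omega
    have := hB Y hYT h3
    omega
  have hdis : Disjoint (Y.biUnion L) ((T \ Y).biUnion L) := by
    rw [disjoint_biUnion_right]
    intro f hf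
    rw [mem_sdiff] at hf
    by_contra hd
    have h3 := card_union_add_card_inter (L f) (Y.biUnion L)
    have h4 : 1 ≤ (L f ∩ Y.biUnion L).card := by
      rw [Nat.one_le_iff_ne_zero, Ne, card_eq_zero, ← disjoint_iff_inter_eq_empty]
      exact fun h => hd h.symm
    have h5 := h2 f hf.1
    have h6 : (insert f Y).card = Y.card + 1 := card_insert_of_notMem hf.2
    have := hmax (insert f Y) ⟨insert_subset hf.1 hYT, mem_insert_of_mem hiY, by
      rw [biUnion_insert, h6, mul_add, mul_one]
      omega, by omega⟩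
    omega
  have hun : T.biUnion L = Y.biUnion L ∪ (T \ Y).biUnion L := by
    rw [← union_biUnion, union_sdiff_of_subset hYT]
  have hYpos : 0 < Y.card := card_pos.2 hYne
  have hsd : (T \ Y).card = c - Y.card := by rw [card_sdiff_of_subset hYT, hc]
  have hYle : Y.card ≤ c := by rw [← hc]; exact card_le_card hYT
  have hrec := ih (c - Y.card) (by omega) (T \ Y)
    (fun f hf => h2 f (mem_sdiff.1 hf).1)
    (fun T' h => hA T' (h.trans sdiff_subset))
    (fun T' h => hB T' (h.trans sdiff_subset)) hsd
  rw [hun, card_union_of_disjoint hdis]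
  have hAY := hA Y hYT hYne
  obtain ⟨y, hy⟩ : ∃ y, y = Y.card := ⟨_, rfl⟩
  obtain ⟨z, hz⟩ : ∃ z, c = y + z := ⟨c - y, by omega⟩
  rw [← hy] at hrec hAY hYm'
  have hz' : c - y = z := by omega
  rw [hz'] at hrec
  rw [hz]
  calc (s * m + 1) * (s * (y + z)) = (s * m + 1) * (s * y) + (s * m + 1) * (s * z) := by ring
    _ ≤ s * m * (Y.biUnion L).card + s * m * ((T \ Y).biUnion L).card := by
        refine Nat.add_le_add ?_ hrec
        calc (s * m + 1) * (s * y) = s * m * (s * y) + s * y := by ring
          _ ≤ s * m * (s * y) + s * m := Nat.add_le_add_left (Nat.mul_le_mul_left s hYm') _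
          _ = s * m * (s * y + 1) := by ring
          _ ≤ _ := Nat.mul_le_mul_left _ hAY
    _ = _ := by ring

variable {V : Type*} [DecidableEq V] [Fintype V]

theorem grow2 (s : ℕ) (H : Finset (Finset V)) (h3 : ∀ f ∈ H, f.card = s + 2) (e d : ℕ)
    (hno : NoConf H e (s * e + d + 1)) (U0 : Finset V) (S0 : Finset (Finset V)) (hS0 : S0 ⊆ H)
    (hin : ∀ f ∈ S0, f ⊆ U0) (hc : U0.card ≤ s * S0.card + d) (he : S0.card < e)
    (m : ℕ) (hm : m = e - 1 - S0.card) :
    (s * m + 1) * (s * ∑ a ∈ U0, dg H a) ≤
      s * m * Fintype.card V + (s * m + 1) * (s * ((s + 2) * e)) := by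
  classical
  -- a maximal extension
  let P : Finset (Finset V × Finset (Finset V)) :=
    (univ : Finset (Finset V × Finset (Finset V))).filter fun q =>
      q.2 ⊆ H ∧ (∀ f ∈ q.2, f ⊆ q.1) ∧ U0 ⊆ q.1 ∧ q.1.card ≤ s * q.2.card + d ∧ q.2.card < e
  have hP0 : (U0, S0) ∈ P := by simp [P]; exact ⟨hS0, hin, hc, he⟩
  have hP : P.Nonempty := ⟨(U0, S0), hP0⟩
  obtain ⟨⟨U, S⟩, hUS, hmax⟩ := P.exists_max_image (fun q => q.2.card) hP
  have hSS0 : S0.card ≤ S.card := hmax _ hP0
  simp only [P, mem_filter, mem_univ, true_and] at hUS hmax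
  obtain ⟨hSH, hSU, hU0, hcard, hlt⟩ := hUS
  have hmax' : ∀ (U' : Finset V) (S' : Finset (Finset V)), S' ⊆ H → (∀ f ∈ S', f ⊆ U') →
      U0 ⊆ U' → U'.card ≤ s * S'.card + d → S'.card < e → S'.card ≤ S.card :=
    fun U' S' a b c d' e' => hmax (U', S') ⟨a, b, c, d', e'⟩
  -- unions of size-`e` families are large
  have hbig : ∀ (U' : Finset V) (S' : Finset (Finset V)), S' ⊆ H → (∀ f ∈ S', f ⊆ U') →
      S'.card = e → U'.card ≤ s * e + d + 1 → False := by
    intro U' S' a b c d'
    have h1 := hno S' a c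
    have h2 : S'.biUnion id ⊆ U' := by
      rw [biUnion_subset]
      exact b
    have := card_le_card h2
    omega
  -- edges outside `S` meet `U` in at most one vertex
  have hone : ∀ f ∈ H, f ∉ S → (f ∩ U).card ≤ 1 := by
    intro f hf hfS
    by_contra hcon
    push Not at hcon
    have hcu : (U ∪ f).card ≤ U.card + s := by
      have h1 := card_union_add_card_inter U f
      rw [inter_comm] at h1
      have := h3 f hf
      omega
    have hins : insert f S ⊆ H := insert_subset hf hSH
    have hins2 : ∀ g ∈ insert f S, g ⊆ U ∪ f := by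
      intro g hg
      rw [mem_insert] at hg
      rcases hg with rfl | hg
      · exact subset_union_right
      · exact (hSU g hg).trans subset_union_left
    have hci : (insert f S).card = S.card + 1 := card_insert_of_notMem hfS
    have hms : s * (S.card + 1) = s * S.card + s := by ring
    rcases Nat.lt_or_ge (S.card + 1) e with h | h
    · have := hmax' (U ∪ f) (insert f S) hins hins2 (hU0.trans subset_union_left)
        (by rw [hci, hms]; omega) (by omega)
      omega
    · have he1 : S.card + 1 = e := by omega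
      exact hbig (U ∪ f) (insert f S) hins hins2 (by omega) (by rw [← he1, hms]; omega)
  let T : Finset (Finset V) := H.filter fun f => (f ∩ U).card = 1
  let L : Finset V → Finset V := fun f => f \ U
  have hTS : ∀ f ∈ T, f ∉ S := by
    intro f hf hfS
    simp only [T, mem_filter] at hf
    have h1 : f ∩ U = f := inter_eq_left.2 (hSU f hfS)
    rw [h1, h3 f hf.1] at hf
    omega
  have hL2 : ∀ f ∈ T, (L f).card = s + 1 := by
    intro f hf
    simp only [T, mem_filter] at hf
    have h1 := card_sdiff_add_card_inter f U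
    have := h3 f hf.1
    simp only [L]
    omega
  have hdisj : ∀ T1 ⊆ T, Disjoint S T1 := by
    intro T1 h1
    rw [disjoint_right]
    exact fun f hf => hTS f (h1 hf)
  have hT1 : ∀ T1 ⊆ T, S ∪ T1 ⊆ H := fun T1 h1 =>
    union_subset hSH (h1.trans (filter_subset _ _))
  have hT2 : ∀ T1 ⊆ T, ∀ f ∈ S ∪ T1, f ⊆ U ∪ T1.biUnion L := by
    intro T1 h1 f hf
    rw [mem_union] at hf
    rcases hf with hf | hf
    · exact (hSU f hf).trans subset_union_left
    · intro a ha
      by_cases haU : a ∈ U
      · exact mem_union_left _ haU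
      · refine mem_union_right _ (mem_biUnion.2 ⟨f, hf, ?_⟩)
        simp [L, ha, haU]
  have hcT : ∀ T1 ⊆ T, (S ∪ T1).card = S.card + T1.card := fun T1 h1 =>
    card_union_of_disjoint (hdisj T1 h1)
  have hcU : ∀ T1 ⊆ T, (U ∪ T1.biUnion L).card ≤ U.card + (T1.biUnion L).card := fun T1 _ =>
    card_union_le _ _
  -- no dense parts
  have hA : ∀ T' ⊆ T, T'.Nonempty → s * T'.card + 1 ≤ (T'.biUnion L).card := by
    intro T0 hT0 hT0ne
    by_contra hcon
    let Q : Finset (Finset (Finset V)) :=
      T.powerset.filter fun T' => T'.Nonempty ∧ (T'.biUnion L).card ≤ s * T'.card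
    have hQ : Q.Nonempty := by
      refine ⟨T0, ?_⟩
      simp only [Q, mem_filter, mem_powerset]
      exact ⟨hT0, hT0ne, by omega⟩
    obtain ⟨T', hT', hmin⟩ := Q.exists_min_image (fun q => q.card) hQ
    simp only [Q, mem_filter, mem_powerset] at hT' hmin
    obtain ⟨hT'T, hT'ne, hT'c⟩ := hT'
    have hmin' : ∀ T'' ⊂ T', T''.Nonempty → s * T''.card + 1 ≤ (T''.biUnion L).card := by
      intro T'' hss hne
      by_contra hc2
      have := hmin T'' ⟨hss.1.trans hT'T, hne, by omega⟩
      have := card_lt_card hss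
      omega
    have hpos : 0 < T'.card := card_pos.2 hT'ne
    rcases Nat.lt_or_ge (S.card + T'.card) e with h | h
    · have e1 := hcT T' hT'T
      have e2 := hcU T' hT'T
      have := hmax' (U ∪ T'.biUnion L) (S ∪ T') (hT1 T' hT'T) (hT2 T' hT'T)
        (hU0.trans subset_union_left) (by rw [e1, mul_add]; omega) (by omega)
      omega
    · obtain ⟨T1, hT1T, hT1c, hT1u⟩ := connect s L T' (fun i hi => (hL2 i (hT'T hi)).le) hmin'
        (by omega) (e - S.card) (by omega) (by omega)
      have h1T := hT1T.trans hT'T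
      have e1 := hcT T1 h1T
      have e2 := hcU T1 h1T
      have e3 : s * (e - S.card) + s * S.card = s * e := by
        rw [← mul_add]
        congr 1
        omega
      exact hbig _ _ (hT1 T1 h1T) (hT2 T1 h1T) (by omega) (by omega)
  -- connected parts are small
  obtain ⟨m', hm'⟩ : ∃ m', m' = e - 1 - S.card := ⟨_, rfl⟩
  have hmm : m' ≤ m := by omega
  have hB : ∀ T' ⊆ T, T'.card = m' + 1 → s * T'.card + 2 ≤ (T'.biUnion L).card := by
    intro T' hT' hc'
    by_contra hcon
    have e1 := hcT T' hT'
    have e2 := hcU T' hT'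
    have e3 : s * T'.card + s * S.card = s * e := by
      rw [← mul_add]
      congr 1
      omega
    exact hbig _ _ (hT1 T' hT') (hT2 T' hT') (by omega) (by omega)
  have hT' := comps s m' L T hL2 hA hB
  have hun : (T.biUnion L).card ≤ Fintype.card V := card_le_univ _
  have hT : (s * m + 1) * (s * T.card) ≤ s * m * Fintype.card V := by
    -- pass from `m'` to `m`
    have h1 : (s * m' + 1) * (s * T.card) ≤ s * m' * Fintype.card V :=
      hT'.trans (Nat.mul_le_mul_left _ hun)
    have h4 : s * T.card ≤ Fintype.card V := by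
      by_contra hcon
      push Not at hcon
      have : s * m' * Fintype.card V ≤ s * m' * (s * T.card) := Nat.mul_le_mul_left _ hcon.le
      have h5 : (s * m' + 1) * (s * T.card) = s * m' * (s * T.card) + s * T.card := by ring
      omega
    obtain ⟨b, rfl⟩ := Nat.exists_eq_add_of_le hmm
    calc (s * (m' + b) + 1) * (s * T.card)
        = (s * m' + 1) * (s * T.card) + s * b * (s * T.card) := by ring
      _ ≤ s * m' * Fintype.card V + s * b * Fintype.card V :=
          Nat.add_le_add h1 (Nat.mul_le_mul_left _ h4)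
      _ = _ := by ring
  -- conclude
  have hle : ∑ a ∈ U0, dg H a ≤ ∑ a ∈ U, dg H a :=
    sum_le_sum_of_subset_of_nonneg hU0 (fun _ _ _ => Nat.zero_le _)
  rw [sum_dg H U] at hle
  have hsplit : ∑ f ∈ H, (f ∩ U).card ≤
      ∑ f ∈ H, ((if f ∈ S then s + 2 else 0) + if f ∈ T then 1 else 0) := by
    refine sum_le_sum fun f hf => ?_
    by_cases hfS : f ∈ S
    · rw [if_pos hfS]
      have := h3 f hf
      have := card_le_card (inter_subset_left (s₁ := f) (s₂ := U))
      omega
    · rw [if_neg hfS]
      have := hone f hf hfS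
      by_cases h1 : (f ∩ U).card = 1
      · rw [if_pos (by simp [T, hf, h1])]
        omega
      · omega
  have e3 : ∑ f ∈ H, ((if f ∈ S then s + 2 else 0) + if f ∈ T then 1 else 0) =
      (s + 2) * S.card + T.card := by
    rw [sum_add_distrib, ← sum_filter, ← sum_filter, filter_mem_eq_inter, filter_mem_eq_inter,
      inter_eq_right.2 hSH, inter_eq_right.2 (show T ⊆ H from filter_subset _ _), sum_const,
      sum_const, smul_eq_mul, smul_eq_mul, mul_one, mul_comm]
  have e4 : ∑ a ∈ U0, dg H a ≤ (s + 2) * e + T.card := by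
    have : (s + 2) * S.card ≤ (s + 2) * e := Nat.mul_le_mul_left _ hlt.le
    omega
  calc (s * m + 1) * (s * ∑ a ∈ U0, dg H a) ≤ (s * m + 1) * (s * ((s + 2) * e + T.card)) :=
        Nat.mul_le_mul_left _ (Nat.mul_le_mul_left _ e4)
    _ = (s * m + 1) * (s * T.card) + (s * m + 1) * (s * ((s + 2) * e)) := by ring
    _ ≤ _ := by omega

/-- Families in which no `e` edges lie on `e + 3` vertices. -/
theorem three (H : Finset (Finset V)) (h3 : ∀ f ∈ H, f.card = 3) (e : ℕ) (he : 2 ≤ e)
    (hno : NoConf H e (e + 3)) :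
    9 * ((e - 1) * H.card) ≤
      (e - 2) * Fintype.card V ^ 2 + 3 * e * (e - 1) * Fintype.card V := by
  classical
  obtain ⟨m, rfl⟩ : ∃ m, e = m + 2 := ⟨e - 2, by omega⟩
  have e1 : m + 2 - 1 = m + 1 := by omega
  have e2 : m + 2 - 2 = m := by omega
  rw [e1, e2]
  obtain ⟨n, hn⟩ : ∃ n, n = Fintype.card V := ⟨_, rfl⟩
  rw [← hn]
  have hloc : ∀ f ∈ H, (m + 1) * ∑ a ∈ f, dg H a ≤ m * n + (m + 1) * (3 * (m + 2)) := by
    intro f hf
    have := grow2 1 H (by simpa using h3) (m + 2) 2 (by
      have : 1 * (m + 2) + 2 + 1 = m + 2 + 3 := by ring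
      rw [this]
      exact hno) f {f} (by simpa using hf) (by simp) (by rw [card_singleton, h3 f hf])
      (by rw [card_singleton]; omega) m (by rw [card_singleton]; omega)
    simp only [one_mul] at this
    rw [hn]
    exact this
  -- sum over the edges
  have hdc : ∑ a : V, dg H a = 3 * H.card := by
    rw [sum_dg H univ, sum_congr rfl fun f hf => ?_, sum_const, smul_eq_mul, mul_comm]
    rw [inter_univ, h3 f hf]
  have hsq : ∑ f ∈ H, ∑ a ∈ f, dg H a = ∑ a : V, dg H a ^ 2 := by
    have h1 : ∀ f ∈ H, ∑ a ∈ f, dg H a = ∑ a : V, if a ∈ f then dg H a else 0 := by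
      intro f _
      rw [← sum_filter]
      congr 1
      ext a
      simp
    rw [sum_congr rfl h1, sum_comm]
    refine sum_congr rfl fun a _ => ?_
    rw [← sum_filter, sum_const, smul_eq_mul, pow_two]
    rfl
  have hS : (m + 1) * ∑ a : V, dg H a ^ 2 ≤ H.card * (m * n + (m + 1) * (3 * (m + 2))) := by
    rw [← hsq, mul_sum]
    refine (sum_le_sum hloc).trans ?_
    rw [sum_const, smul_eq_mul]
  have hcs : (3 * H.card) ^ 2 ≤ n * ∑ a : V, dg H a ^ 2 := by
    rw [← hdc, hn]
    have h := sum_mul_sq_le_sq_mul_sq (univ : Finset V) (fun _ => (1 : ℕ)) (fun a => dg H a)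
    simpa using h
  rcases Nat.eq_zero_or_pos H.card with h0 | hpos
  · rw [h0]
    simp
  · have key : H.card * (9 * ((m + 1) * H.card)) ≤
        H.card * (m * n ^ 2 + 3 * (m + 2) * (m + 1) * n) := by
      calc H.card * (9 * ((m + 1) * H.card)) = (m + 1) * (3 * H.card) ^ 2 := by ring
        _ ≤ (m + 1) * (n * ∑ a : V, dg H a ^ 2) := Nat.mul_le_mul_left _ hcs
        _ = n * ((m + 1) * ∑ a : V, dg H a ^ 2) := by ring
        _ ≤ n * (H.card * (m * n + (m + 1) * (3 * (m + 2)))) := Nat.mul_le_mul_left _ hS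
        _ = _ := by ring
    exact Nat.le_of_mul_le_mul_left key hpos

end Pool.Agent.U468.BES
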