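import Mathlib
import Pool.Agent.Y436.Loss
import Pool.Agent.U468.BESGrow

set_option autoImplicit false

/-!
# The main argument with small components (helper468)

The argument of `Pool.Agent.Y436.Loss.main`, with `Pool.Agent.U468.BES.grow2` instead of
`Pool.Agent.Y436.Grow.grow`: with `r = q + 3`, `s = r - 2`, `M = s (2 ^ (j+1) - 1) + j + 2`,
`m = e - 2 ^ (j+1)` and `γ > (s m / (s m + 1)) / (r s M)`, an `r`-uniform hypergraph on `n ≥ N`
vertices with at least `γ n ^ 2` edges has `e` edges on at most `s e + j + 3` vertices.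
-/

namespace Pool.Agent.U468.BESLoss

open Finset Pool.Agent.Y436.Grow SimpleGraph TripartiteFromTriangles Pool.Agent.Y436
  Pool.Agent.Y436.Loss

theorem main (q j e m : ℕ) (he : 2 ^ (j + 1) ≤ e) (hme : m = e - 2 ^ (j + 1)) (κ : ℝ)
    (hκ : κ = ((q : ℝ) + 1) * m / (((q : ℝ) + 1) * m + 1)) (γ : ℝ)
    (hγ : κ < ((q : ℝ) + 1) * (((q + 1) * (2 ^ (j + 1) - 1) + j + 2 : ℕ) : ℝ) * ((q : ℝ) + 3) * γ) :
    ∃ N : ℕ, ∀ n : ℕ, N ≤ n → ∀ H : Finset (Finset (Fin n)), (∀ f ∈ H, f.card = q + 3) →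
      γ * (n : ℝ) ^ 2 ≤ H.card → ¬ NoConf H e ((q + 1) * e + (j + 2) + 1) := by
  classical
  obtain ⟨M, hM⟩ : ∃ M : ℕ, M = (q + 1) * (2 ^ (j + 1) - 1) + j + 2 := ⟨_, rfl⟩
  rw [← hM] at hγ
  have hκ0 : 0 ≤ κ := by rw [hκ]; positivity
  obtain ⟨X, hX⟩ : ∃ X : ℝ, X = ((q : ℝ) + 1) * M * ((q : ℝ) + 3) * γ - κ := ⟨_, rfl⟩
  have hX0 : 0 < X := by rw [hX]; linarith
  have hM0 : (0 : ℝ) < M := by
    have : 0 < M := by omega
    exact_mod_cast this
  have hγ0 : 0 < γ := by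
    by_contra h
    push Not at h
    have h1 : ((q : ℝ) + 1) * M * ((q : ℝ) + 3) * γ ≤ 0 := mul_nonpos_of_nonneg_of_nonpos (by positivity) h
    linarith
  obtain ⟨η, hη⟩ : ∃ η : ℝ, η = X / (4 * ((q : ℝ) + 1) * M) := ⟨_, rfl⟩
  have hη0 : 0 < η := by rw [hη]; positivity
  have hηX : 4 * ((q : ℝ) + 1) * M * η = X := by rw [hη]; field_simp
  have he1 : 1 ≤ e := le_trans Nat.one_le_two_pow he
  have he0 : (0 : ℝ) < e := by exact_mod_cast he1
  obtain ⟨c0, hc0, hsel⟩ := Select.select q e (j + 2) (by omega) he1 γ (((q : ℝ) + 3) * η) η hγ0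
    (by positivity) (by
      have h1 : 4 * ((q : ℝ) + 1) * M * η ≤ ((q : ℝ) + 1) * M * (((q : ℝ) + 3) * γ) := by
        rw [hηX, hX]; linarith
      have h2 : 4 * η ≤ ((q : ℝ) + 3) * γ := by
        have h3 : ((q : ℝ) + 1) * M * (4 * η) ≤ ((q : ℝ) + 1) * M * (((q : ℝ) + 3) * γ) := by linarith
        exact le_of_mul_le_mul_left h3 (by positivity)
      have h4 : η ≤ ((q : ℝ) + 3) * γ := by linarith
      calc ((q : ℝ) + 3) * η ≤ ((q : ℝ) + 3) * (((q : ℝ) + 3) * γ) := by gcongr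
        _ = _ := by ring) hη0
  obtain ⟨N1, hN1⟩ := Core.core j c0 hc0
  refine ⟨max (max N1 1) (max ⌈2 ^ (j + 1) * e / c0⌉₊
    (⌈2 * (((q : ℝ) + 1) * (((q : ℝ) + 3) * e)) / X⌉₊ + 1)), ?_⟩
  intro n hn H h3 hcard hno
  have hn1 : N1 ≤ n := (le_max_left _ _).trans ((le_max_left _ _).trans hn)
  have hn2 : 1 ≤ n := (le_max_right _ _).trans ((le_max_left _ _).trans hn)
  have hn3 : ⌈2 ^ (j + 1) * e / c0⌉₊ ≤ n := (le_max_left _ _).trans ((le_max_right _ _).trans hn)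
  have hn4 : ⌈2 * (((q : ℝ) + 1) * (((q : ℝ) + 3) * e)) / X⌉₊ + 1 ≤ n :=
    (le_max_right _ _).trans ((le_max_right _ _).trans hn)
  have hn0 : (0 : ℝ) < n := by exact_mod_cast hn2
  have hbig1 : 2 ^ (j + 1) * (e : ℝ) ≤ c0 * n := by
    have h1 : 2 ^ (j + 1) * (e : ℝ) / c0 ≤ n :=
      (Nat.le_ceil _).trans (by exact_mod_cast hn3)
    rw [div_le_iff₀ hc0] at h1
    linarith
  have hbig2 : 2 * (((q : ℝ) + 1) * (((q : ℝ) + 3) * e)) < X * n := by
    have h1 : 2 * (((q : ℝ) + 1) * (((q : ℝ) + 3) * e)) / X < n := by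
      refine (Nat.le_ceil _).trans_lt ?_
      exact_mod_cast hn4
    rw [div_lt_iff₀ hX0] at h1
    linarith
  obtain ⟨G, o, w, hGH, hGc, hinj, hmem, hcol, hlin, hwm, hwd, hws⟩ := hsel n hn2 H h3 hcard hno
  -- the triples
  let tr : Finset (Fin n) → Fin n × Fin n × Fin n := fun f => (o f 1, o f 2, o f 0)
  have h01 : (0 : Fin (q + 3)) ≠ 1 := by simp
  have h02 : (0 : Fin (q + 3)) ≠ 2 := by
    rw [Ne, Fin.ext_iff, val_two]
    simp
  have h12 : (1 : Fin (q + 3)) ≠ 2 := by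
    rw [Ne, Fin.ext_iff, val_two]
    simp
  have hshare : ∀ f ∈ G, ∀ g ∈ G, ∀ i k : Fin (q + 3), i ≠ k → o f i = o g i → o f k = o g k → f = g := by
    intro f hf g hg i k hik h1 h2
    by_contra hfg
    have h4 := hlin f hf g hg hfg
    have h5 : 1 < (f ∩ g).card := by
      refine one_lt_card.2 ⟨o f i, ?_, o f k, ?_, ?_⟩
      · rw [mem_inter]
        exact ⟨(hmem f hf _).2 ⟨i, rfl⟩, (hmem g hg _).2 ⟨i, h1.symm⟩⟩
      · rw [mem_inter]
        exact ⟨(hmem f hf _).2 ⟨k, rfl⟩, (hmem g hg _).2 ⟨k, h2.symm⟩⟩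
      · exact fun h => hik (hinj f hf h)
    omega
  have htrinj : Set.InjOn tr (G : Set (Finset (Fin n))) := by
    intro f hf g hg h
    simp only [tr, Prod.mk.injEq] at h
    exact hshare f (mem_coe.1 hf) g (mem_coe.1 hg) 1 2 h12 h.1 h.2.1
  have hFc : (G.image tr).card = G.card := card_image_of_injOn htrinj
  have hdis : ExplicitDisjoint (G.image tr) := by
    refine ⟨?_, ?_, ?_⟩
    · intro a b c a' h1 h2
      obtain ⟨f, hf, h1⟩ := mem_image.1 h1
      obtain ⟨g, hg, h2⟩ := mem_image.1 h2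
      simp only [tr, Prod.mk.injEq] at h1 h2
      have := hshare f hf g hg 2 0 h02.symm (h1.2.1.trans h2.2.1.symm) (h1.2.2.trans h2.2.2.symm)
      rw [← h1.1, ← h2.1, this]
    · intro a b c b' h1 h2
      obtain ⟨f, hf, h1⟩ := mem_image.1 h1
      obtain ⟨g, hg, h2⟩ := mem_image.1 h2
      simp only [tr, Prod.mk.injEq] at h1 h2
      have := hshare f hf g hg 1 0 h01.symm (h1.1.trans h2.1.symm) (h1.2.2.trans h2.2.2.symm)
      rw [← h1.2.1, ← h2.2.1, this]
    · intro a b c c' h1 h2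
      obtain ⟨f, hf, h1⟩ := mem_image.1 h1
      obtain ⟨g, hg, h2⟩ := mem_image.1 h2
      simp only [tr, Prod.mk.injEq] at h1 h2
      have := hshare f hf g hg 1 2 h12 (h1.1.trans h2.1.symm) (h1.2.1.trans h2.2.1.symm)
      rw [← h1.2.2, ← h2.2.2, this]
  obtain ⟨S, hS, A, B, D, hSc, hA, hB, hD, hAF, hBF, hDF, hin⟩ :=
    hN1 n hn1 (G.image tr) hdis (by rw [hFc]; exact hGc)
  let S0 : Finset (Finset (Fin n)) := G.filter fun f => tr f ∈ S
  have hS0G : S0 ⊆ G := filter_subset _ _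
  have hS0c : S0.card = S.card := by
    have h1 : S0.image tr = S := by
      ext t
      simp only [S0, mem_image, mem_filter]
      constructor
      · rintro ⟨f, ⟨_, h⟩, rfl⟩
        exact h
      · intro h
        obtain ⟨f, hf, hft⟩ := mem_image.1 (hS h)
        exact ⟨f, ⟨hf, by rw [hft]; exact h⟩, hft⟩
    rw [← h1, card_image_of_injOn (htrinj.mono (by exact_mod_cast hS0G))]
  -- the classes
  have hW : ∀ i : Fin (q + 3), 2 ^ (j + 1) ≤ (G.image fun f => o f i).card := by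
    intro i
    have h1 : G ⊆ (G.image fun f => o f i).biUnion fun v => H.filter fun f => v ∈ f := by
      intro f hf
      rw [mem_biUnion]
      exact ⟨o f i, mem_image_of_mem _ hf, mem_filter.2 ⟨hGH hf, (hmem f hf _).2 ⟨i, rfl⟩⟩⟩
    have h2 : G.card ≤ (G.image fun f => o f i).card * (e * n) := by
      refine (card_le_card h1).trans (card_biUnion_le.trans ?_)
      have h4 : ∀ v ∈ G.image fun f => o f i, (H.filter fun f => v ∈ f).card ≤ e * n := by
        intro v _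
        have := Avg.dg_le (s := q + 1) h3 (by omega : 1 ≤ j + 2) hno v
        rw [Fintype.card_fin] at this
        exact this
      refine (sum_le_sum h4).trans ?_
      rw [sum_const, smul_eq_mul]
    have h5 : (G.card : ℝ) ≤ (G.image fun f => o f i).card * (e * n) := by exact_mod_cast h2
    have h6 : 2 ^ (j + 1) * (e : ℝ) * n ≤ (G.image fun f => o f i).card * (e * n) := by
      refine le_trans ?_ (hGc.trans h5)
      nlinarith
    have h7 : (2 : ℝ) ^ (j + 1) ≤ (G.image fun f => o f i).card := by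
      have h8 : (2 : ℝ) ^ (j + 1) * (e * n) ≤ (G.image fun f => o f i).card * (e * n) := by linarith
      exact le_of_mul_le_mul_right h8 (by positivity)
    exact_mod_cast h7
  have hmule : ∀ i, mu q j i ≤ 2 ^ (j + 1) := by
    intro i
    have h1 : j < 2 ^ j := Nat.lt_two_pow_self
    have h2 : 2 ^ (j + 1) = 2 * 2 ^ j := by ring
    unfold mu
    split_ifs <;> omega
  have hsmall : ∀ i : Fin (q + 3), (S0.image fun f => o f i).card ≤ mu q j i := by
    intro i
    have hgen : (S0.image fun f => o f i).card ≤ 2 ^ (j + 1) - 1 := by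
      refine card_image_le.trans ?_
      rw [hS0c]
      omega
    by_cases hi0 : i = 0
    · subst hi0
      have h1 : (S0.image fun f => o f 0) ⊆ D := by
        intro v hv
        obtain ⟨f, hf, rfl⟩ := mem_image.1 hv
        exact (hin _ (mem_filter.1 hf).2).2.2
      refine (card_le_card h1).trans ?_
      rw [hD]
      simp [mu]
    · by_cases hi1 : i = 1
      · subst hi1
        have h1 : (S0.image fun f => o f 1) ⊆ A := by
          intro v hv
          obtain ⟨f, hf, rfl⟩ := mem_image.1 hv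
          exact (hin _ (mem_filter.1 hf).2).1
        refine (card_le_card h1).trans ?_
        rw [hA]
        simp [mu]
      · by_cases hi2 : i = 2
        · subst hi2
          have h1 : (S0.image fun f => o f 2) ⊆ B := by
            intro v hv
            obtain ⟨f, hf, rfl⟩ := mem_image.1 hv
            exact (hin _ (mem_filter.1 hf).2).2.1
          refine (card_le_card h1).trans ?_
          rw [hB]
          have h4 : ((2 : Fin (q + 3)) : ℕ) = 2 := val_two q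
          unfold mu
          rw [if_neg (by omega), if_pos (by omega)]
        · have h4 : ((2 : Fin (q + 3)) : ℕ) = 2 := val_two q
          have h5 : ((1 : Fin (q + 3)) : ℕ) = 1 := by simp
          have h6 : ((0 : Fin (q + 3)) : ℕ) = 0 := by simp
          rw [Fin.ext_iff] at hi0 hi1 hi2
          unfold mu
          rw [if_neg (by omega), if_neg (by omega)]
          exact hgen
  have hC : ∀ i : Fin (q + 3), ∃ C : Finset (Fin n), (S0.image fun f => o f i) ⊆ C ∧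
      C ⊆ (G.image fun f => o f i) ∧ C.card = mu q j i := by
    intro i
    exact exists_subsuperset_card_eq (image_subset_image hS0G) (hsmall i) ((hmule i).trans (hW i))
  choose C hC1 hC2 hC3 using hC
  have hCdis : ∀ i ∈ (univ : Finset (Fin (q + 3))), ∀ k ∈ (univ : Finset (Fin (q + 3))), i ≠ k →
      Disjoint (C i) (C k) := by
    intro i _ k _ hik
    rw [Finset.disjoint_left]
    intro v h1 h2
    obtain ⟨f, hf, h4⟩ := mem_image.1 (hC2 i h1)
    obtain ⟨g, hg, h5⟩ := mem_image.1 (hC2 k h2)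
    exact hik (hcol f hf g hg i k (h4.trans h5.symm))
  let U0 : Finset (Fin n) := univ.biUnion C
  have hU0c : U0.card = M := by
    rw [hM, ← mu_sum, card_biUnion hCdis]
    exact sum_congr rfl fun i _ => hC3 i
  have hin0 : ∀ f ∈ S0, f ⊆ U0 := by
    intro f hf v hv
    obtain ⟨i, rfl⟩ := (hmem f (hS0G hf) v).1 hv
    exact mem_biUnion.2 ⟨i, mem_univ _, hC1 i (mem_image_of_mem _ hf)⟩
  have hS0card : S0.card = 2 ^ (j + 1) - 1 := by rw [hS0c]; omega
  have hpos : 1 ≤ 2 ^ (j + 1) := Nat.one_le_two_pow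
  have hgrow := Pool.Agent.U468.BES.grow2 (q + 1) H h3 e (j + 2) hno U0 S0 (hS0G.trans hGH) hin0
    (by rw [hU0c, hM, hS0card]; omega) (by rw [hS0card]; omega) m (by rw [hS0card]; omega)
  rw [Fintype.card_fin] at hgrow
  -- the degree sum
  have hsum : ∑ i, (mu q j i : ℝ) * w i ≤ ((∑ a ∈ U0, dg H a : ℕ) : ℝ) := by
    rw [sum_biUnion (fun i hi k hk => hCdis i (mem_coe.1 hi) k (mem_coe.1 hk)), Nat.cast_sum]
    refine sum_le_sum fun i _ => ?_
    rw [Nat.cast_sum, ← hC3 i, ← nsmul_eq_mul, ← sum_const]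
    refine sum_le_sum fun v hv => ?_
    obtain ⟨f, hf, rfl⟩ := mem_image.1 (hC2 i hv)
    exact hwd f hf i
  have hcheb : (M : ℝ) * ∑ i, w i ≤ ((q : ℝ) + 3) * ∑ i, (mu q j i : ℝ) * w i := by
    have h1 : Monotone fun i => (mu q j i : ℝ) := fun a b hab => by
      show (mu q j a : ℝ) ≤ (mu q j b : ℝ)
      exact_mod_cast mu_mono q j hab
    have h2 := (h1.monovary hwm).sum_mul_sum_le_card_mul_sum
    rw [Fintype.card_fin] at h2
    have h4 : ∑ i, (mu q j i : ℝ) = M := by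
      rw [hM, ← mu_sum]
      push_cast
      rfl
    rw [h4] at h2
    push_cast at h2
    exact h2
  have hg : ((q : ℝ) + 1) * ((∑ a ∈ U0, dg H a : ℕ) : ℝ) ≤
      κ * n + ((q : ℝ) + 1) * (((q : ℝ) + 3) * e) := by
    have h1 : ((((q + 1) * m + 1) * ((q + 1) * ∑ a ∈ U0, dg H a) : ℕ) : ℝ) ≤
        (((q + 1) * m * n + ((q + 1) * m + 1) * ((q + 1) * ((q + 1 + 2) * e)) : ℕ) : ℝ) := by
      exact_mod_cast hgrow
    push_cast at h1 ⊢
    have h2 : ((q : ℝ) + 1 + 2) = (q : ℝ) + 3 := by ring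
    rw [h2] at h1
    have h3 : (0 : ℝ) < ((q : ℝ) + 1) * m + 1 := by positivity
    have h4 : (((q : ℝ) + 1) * m + 1) * (κ * n) = ((q : ℝ) + 1) * m * n := by
      rw [hκ]; field_simp
    refine le_of_mul_le_mul_left ?_ h3
    rw [mul_add, h4]
    exact h1
  -- putting things together
  obtain ⟨W, hWdef⟩ : ∃ W : ℝ, W = ∑ i, w i := ⟨_, rfl⟩
  obtain ⟨Z, hZ⟩ : ∃ Z : ℝ, Z = ∑ i, (mu q j i : ℝ) * w i := ⟨_, rfl⟩
  obtain ⟨Y, hY⟩ : ∃ Y : ℝ, Y = ((∑ a ∈ U0, dg H a : ℕ) : ℝ) := ⟨_, rfl⟩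
  rw [← hWdef, ← hZ] at hcheb
  rw [← hWdef] at hws
  rw [← hZ, ← hY] at hsum
  rw [← hY] at hg
  have hq1 : (0 : ℝ) < (q : ℝ) + 1 := by positivity
  have hq3 : (0 : ℝ) < (q : ℝ) + 3 := by positivity
  have k1 : ((q : ℝ) + 1) * M * W ≤
      ((q : ℝ) + 3) * (κ * n + ((q : ℝ) + 1) * (((q : ℝ) + 3) * e)) := by
    calc ((q : ℝ) + 1) * M * W = ((q : ℝ) + 1) * (M * W) := by ring
      _ ≤ ((q : ℝ) + 1) * (((q : ℝ) + 3) * Z) := by gcongr
      _ ≤ ((q : ℝ) + 1) * (((q : ℝ) + 3) * Y) := by gcongr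
      _ = ((q : ℝ) + 3) * (((q : ℝ) + 1) * Y) := by ring
      _ ≤ _ := by gcongr
  have k2 : ((q : ℝ) + 1) * M * ((((q : ℝ) + 3) ^ 2 * γ - ((q : ℝ) + 3) * η - ((q : ℝ) + 3) * η) * n) ≤
      ((q : ℝ) + 1) * M * W := by gcongr
  have k3 : ((q : ℝ) + 1) * M * ((((q : ℝ) + 3) ^ 2 * γ - ((q : ℝ) + 3) * η - ((q : ℝ) + 3) * η) * n) =
      ((q : ℝ) + 3) * ((κ + X / 2) * n) := by
    have h1 : ((q : ℝ) + 1) * M * ((q : ℝ) + 3) * γ = κ + X := by rw [hX]; ring
    calc ((q : ℝ) + 1) * M * ((((q : ℝ) + 3) ^ 2 * γ - ((q : ℝ) + 3) * η - ((q : ℝ) + 3) * η) * n)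
        = ((q : ℝ) + 3) * ((((q : ℝ) + 1) * M * ((q : ℝ) + 3) * γ) -
          (4 * ((q : ℝ) + 1) * M * η) / 2) * n := by ring
      _ = _ := by rw [h1, hηX]; ring
  rw [k3] at k2
  have k4 := k2.trans k1
  have k5 : (κ + X / 2) * n ≤ κ * n + ((q : ℝ) + 1) * (((q : ℝ) + 3) * e) :=
    le_of_mul_le_mul_left k4 hq3
  have k6 : (κ + X / 2) * n = κ * n + X * n / 2 := by ring
  linarith

end Pool.Agent.U468.BESLoss
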